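import Mathlib

/-!
# A triangle-free graph with a sparsely joined perfect matching and no good balanced split

The graph has 26 vertices, and the perfect matching consists of the edges `{2 i, 2 i + 1}`.  It was
found by a computer search.  The term `proof` is a decision tree which refutes all balanced splits: at a
node the given vertex is put into `A` or into the complement, a leaf is a 4-cycle `a b c d` with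
`a, b` on one side and `c, d` on the other side, or a point where one side has more than 13 vertices.
-/

set_option autoImplicit false

namespace Pool.Agent.Results.MP_42b70f_co.NoSplit

open SimpleGraph

/-- The perfect matching `M` of `G` is sparsely joined: for any two distinct edges `uv` and `xy` of `M`
at most one of the four pairs `ux`, `uy`, `vx`, `vy` is an edge of `G`. -/
def SparselyJoined {V : Type} (G : SimpleGraph V) (M : G.Subgraph) : Prop :=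
  M.IsPerfectMatching ∧ ∀ u v x y : V, M.Adj u v → M.Adj x y → s(u, v) ≠ s(x, y) →
    {p : V × V | (p.1 = u ∨ p.1 = v) ∧ (p.2 = x ∨ p.2 = y) ∧ G.Adj p.1 p.2}.Subsingleton

/-- The adjacency lists as binary numbers. -/
def rows : List ℕ :=
  [8923658, 17924177, 17174856, 1082389, 6685226, 33596560, 36201606, 8520288, 10061316, 16781713,
  17176936, 5276673, 43558404, 135265, 26247232, 416042, 4325634, 35234964, 43549716, 397633,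
  2513162, 26214480, 25233424, 6574465, 39863814, 17174624]

/-- The adjacency of the graph. -/
def adj (i j : ℕ) : Bool := (rows.getD i 0).testBit j

/-- The graph. -/
def G : SimpleGraph (Fin 26) where
  Adj i j := adj i j = true
  symm := ⟨by decide +kernel⟩
  loopless := ⟨by decide +kernel⟩

/-- The number of binary digits `1` among the first `n` digits. -/
def count (A : ℕ) : ℕ → ℕ
  | 0 => 0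
  | n + 1 => count A n + (if A.testBit n then 1 else 0)

/-- Decision trees. -/
inductive T : Type
  | b (a b c d : ℕ) : T
  | g : T
  | n (v : ℕ) (l r : T) : T

/-- The checker; the digits of `A` are the vertices put into the set so far, those of `B` the vertices
put into the complement. -/
def check : T → ℕ → ℕ → Bool
  | .b a b c d, A, B => adj a b && adj b c && adj c d && adj d a &&
      (A.testBit a && A.testBit b && B.testBit c && B.testBit d ||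
        B.testBit a && B.testBit b && A.testBit c && A.testBit d)
  | .g, A, B => decide (13 < count A 26) || decide (13 < count B 26)
  | .n v l r, A, B => decide (v < 26) && check l (A ||| 1 <<< v) B && check r A (B ||| 1 <<< v)

/-- The decision tree. -/
def proof : T :=
  (.n 0 (.n 1 (.n 3 (.n 11 (.n 6 (.n 24 (.n 23 (.n 8 (.n 12 (.n 4 (.n 5 (.n 2 (.n 7 (.n 9 .g (.n 10
  .g (.n 17 .g (.b 2 3 10 17)))) (.n 9 (.n 17 .g (.b 2 6 7 17)) (.b 23 0 9 7))) (.n 17 (.n 18 (.n 7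
  .g (.n 9 .g (.b 23 0 9 7))) (.b 3 4 18 2)) (.b 3 4 17 2))) (.n 15 (.n 10 (.n 7 (.n 13 .g (.b 7 6
  13 5)) (.b 6 10 5 7)) (.b 3 4 5 10)) (.b 1 4 5 15))) (.n 9 (.n 21 (.n 22 (.n 18 (.n 2 .g (.n 5 .g
  (.n 15 .g (.n 14 .g (.b 1 6 14 15))))) (.b 23 21 4 18)) (.b 24 1 4 22)) (.b 6 1 4 21)) (.b 0 1 4
  9))) (.n 9 (.n 13 (.n 19 (.n 2 (.n 10 (.n 15 .g (.b 2 3 15 12)) (.b 2 3 10 12)) (.b 8 9 12 2)) (.b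
  0 9 12 19)) (.b 0 9 12 13)) (.b 23 0 9 12))) (.n 9 (.n 19 (.n 2 (.n 10 (.n 15 (.n 16 (.n 20 .g (.b
  1 15 8 20)) (.b 1 15 8 16)) (.b 2 3 15 8)) (.b 2 3 10 8)) (.b 9 24 2 8)) (.b 0 9 8 19)) (.b 23 0 9
  8))) (.n 22 (.n 14 (.n 7 (.n 21 (.n 9 (.n 8 (.n 12 (.n 2 .g (.n 17 .g (.b 6 7 17 2))) (.b 0 9 12
  23)) (.b 0 9 8 23)) (.n 4 (.n 18 (.n 2 (.n 8 .g (.b 24 2 8 9)) (.n 17 (.n 5 .g (.n 15 .g (.b 1 4 5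
  15))) (.b 3 4 17 2))) (.b 21 4 18 23)) (.b 0 1 4 9))) (.b 6 7 23 21)) (.b 14 6 7 23)) (.b 22 24 14
  23)) (.b 0 11 22 23))) (.n 9 (.n 2 (.n 10 (.n 14 (.n 21 (.n 25 (.n 22 (.n 4 (.n 5 .g (.n 15 .g (.b
  1 4 5 15))) (.n 17 (.n 18 .g (.b 2 3 4 18)) (.b 2 3 4 17))) (.b 10 11 22 24)) (.b 1 6 25 24)) (.b
  1 6 21 24)) (.b 1 6 14 24)) (.b 1 6 10 24)) (.b 1 6 2 24)) (.b 0 1 24 9))) (.n 13 (.n 19 (.n 2 (.n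
  10 (.n 17 (.n 7 (.n 25 (.n 4 (.n 21 (.n 5 .g (.n 15 .g (.b 1 4 5 15))) (.b 1 4 21 6)) (.n 9 (.n 18
  (.n 5 .g (.b 10 3 4 5)) (.b 2 3 4 18)) (.b 0 1 4 9))) (.b 17 2 6 25)) (.b 17 2 6 7)) (.n 4 (.n 15
  (.n 14 (.n 16 (.n 20 (.n 21 .g (.b 1 4 21 6)) (.b 1 4 17 20)) (.b 1 4 17 16)) (.b 15 1 6 14)) (.b
  1 4 17 15)) (.b 2 3 4 17))) (.b 2 3 10 6)) (.n 24 (.b 24 1 6 2) (.n 9 (.n 8 (.b 8 9 24 2) (.n 23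
  (.n 12 (.b 9 12 2 8) (.n 10 (.b 3 10 6 2) (.n 17 (.b 13 17 2 6) (.n 4 (.b 3 4 17 2) (.n 15 (.b 15
  1 4 17) (.n 16 (.b 16 1 15 8) (.n 20 (.b 20 1 15 8) (.n 18 (.b 19 18 2 6) (.n 7 (.b 9 7 17 4) (.n
  5 (.b 5 13 17 4) .g)))))))))) (.b 0 9 8 23))) (.b 0 1 24 9)))) (.b 0 1 6 19)) (.b 0 1 6 13))) (.n
  10 (.n 15 (.n 20 (.n 2 (.n 22 (.n 4 (.n 6 (.n 5 (.n 7 (.n 8 (.n 9 .g (.n 24 .g (.b 0 1 24 9))) (.n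
  16 (.n 19 .g (.b 2 6 19 8)) (.b 1 15 8 16))) (.n 17 (.n 9 (.n 23 .g (.b 0 9 7 23)) (.b 4 5 7 9))
  (.b 2 6 7 17))) (.n 7 (.n 13 (.n 25 (.n 8 .g (.n 16 .g (.b 1 15 8 16))) (.b 7 6 25 5)) (.b 7 6 13
  5)) (.b 6 10 5 7))) (.n 13 (.n 19 (.n 14 (.n 21 (.n 5 .g (.n 7 .g (.n 17 .g (.n 16 .g (.b 1 4 17
  16))))) (.b 1 4 21 6)) (.b 15 1 6 14)) (.b 0 1 6 19)) (.b 0 1 6 13))) (.n 9 (.n 5 (.n 17 (.n 18
  (.n 21 (.n 6 .g (.n 13 .g (.b 0 1 6 13))) (.b 20 1 4 21)) (.b 15 1 4 18)) (.b 15 1 4 17)) (.b 15 1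
  4 5)) (.b 0 1 4 9))) (.n 23 (.b 23 0 11 22) (.n 24 (.b 24 10 11 22) (.n 9 (.n 7 (.n 8 (.n 12 (.n
  14 (.n 21 (.n 4 .g (.n 5 .g (.b 15 1 4 5))) (.b 1 20 21 24)) (.b 1 15 14 24)) (.b 0 9 12 23)) (.b
  0 9 8 23)) (.b 0 9 7 23)) (.b 0 1 24 9))))) (.n 6 (.n 24 (.n 8 (.n 12 (.n 17 (.n 18 (.n 22 (.n 4
  .g (.n 9 .g (.b 0 1 4 9))) (.b 24 10 11 22)) (.b 3 10 18 2)) (.b 3 10 17 2)) (.b 3 10 12 2)) (.b 3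
  10 8 2)) (.b 1 6 2 24)) (.b 3 10 6 2))) (.b 0 1 20 11)) (.b 0 1 15 11)) (.b 0 3 10 11))) (.n 4 (.n
  15 (.n 20 (.n 10 (.n 2 (.n 19 (.n 23 (.n 6 (.n 5 (.n 7 (.n 8 (.n 9 .g (.n 12 .g (.b 19 0 9 12)))
  (.n 9 (.n 16 .g (.b 1 15 8 16)) (.b 19 0 9 8))) (.n 9 (.n 17 (.n 8 .g (.n 16 .g (.b 1 15 8 16)))
  (.b 2 6 7 17)) (.b 23 0 9 7))) (.n 7 (.n 13 (.n 25 (.n 8 .g (.n 9 .g (.b 19 0 9 8))) (.b 7 6 25
  5)) (.b 7 6 13 5)) (.b 6 10 5 7))) (.n 13 (.n 14 (.n 21 (.n 7 (.n 5 .g (.n 8 .g (.n 9 .g (.b 19 0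
  9 8)))) (.b 23 14 6 7)) (.b 1 4 21 6)) (.b 15 1 6 14)) (.b 0 1 6 13))) (.n 8 (.n 12 (.n 18 (.n 21
  (.n 22 (.n 14 .g (.b 8 15 14 23)) (.b 4 18 23 22)) (.b 4 18 23 21)) (.b 0 19 18 23)) (.b 0 19 12
  23)) (.b 0 19 8 23))) (.n 6 (.n 8 (.n 12 (.n 17 (.n 18 (.n 5 (.n 7 .g (.n 9 .g (.b 4 5 7 9))) (.n
  7 (.n 13 .g (.b 17 4 5 13)) (.b 17 4 5 7))) (.b 2 6 19 18)) (.b 2 6 19 17)) (.b 2 6 19 12)) (.b 2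
  6 19 8)) (.b 0 1 6 19))) (.n 17 (.b 4 17 2 3) (.n 16 (.n 18 (.b 4 18 2 3) (.n 6 (.b 10 6 2 3) (.n
  13 (.n 19 (.n 23 (.n 24 (.b 24 1 6 2) (.n 9 (.n 14 (.n 21 (.n 22 .g (.b 1 4 22 24)) (.b 1 4 21 6))
  (.b 15 1 6 14)) (.b 0 1 24 9))) (.b 0 19 18 23)) (.b 0 1 6 19)) (.b 0 1 6 13)))) (.b 1 4 17 16))))
  (.n 11 (.b 11 0 3 10) (.n 5 (.b 4 5 10 3) (.n 8 (.b 8 15 3 10) (.n 16 (.n 12 (.b 12 15 3 10) (.n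
  17 (.b 4 17 10 3) (.n 18 (.b 4 18 10 3) (.n 6 (.n 24 (.n 2 (.b 6 2 3 10) (.n 7 (.b 6 7 17 2) (.n 9
  (.b 9 24 2 8) (.n 23 (.b 23 0 9 7) (.n 19 (.b 19 0 9 8) (.n 13 (.b 13 0 9 12) .g)))))) (.b 1 6 10
  24)) (.n 13 (.n 19 (.n 9 (.n 23 (.n 22 (.n 24 (.b 24 1 6 10) (.n 14 (.n 21 (.n 7 .g (.b 9 4 5 7))
  (.b 1 4 21 6)) (.b 15 1 6 14))) (.b 23 0 11 22)) (.b 0 9 8 23)) (.b 19 0 9 8)) (.b 0 1 6 19)) (.b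
  0 1 6 13)))))) (.b 1 15 8 16)))))) (.b 0 1 20 3)) (.b 0 1 15 3)) (.b 0 1 4 3))) (.n 3 (.n 4 (.n 15
  (.n 20 (.n 10 (.n 6 (.n 24 (.n 17 (.n 16 (.n 2 (.n 5 (.n 7 (.n 8 .g (.n 9 .g (.b 24 2 8 9))) (.n 9
  (.n 23 .g (.b 0 9 7 23)) (.b 4 5 7 9))) (.n 7 (.n 13 (.n 25 .g (.b 17 4 5 25)) (.b 17 4 5 13)) (.b
  17 4 5 7))) (.n 18 (.n 8 (.n 12 (.n 5 .g (.n 7 .g (.b 17 4 5 7))) (.b 3 10 12 2)) (.b 3 10 8 2))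
  (.b 3 4 18 2))) (.b 4 17 16 1)) (.n 2 (.n 7 (.n 13 (.n 19 (.n 25 (.n 5 .g (.n 8 .g (.n 9 .g (.b 19
  0 9 8)))) (.b 2 6 25 17)) (.b 0 13 17 19)) (.b 2 6 13 17)) (.b 2 6 7 17)) (.b 3 4 17 2))) (.b 6 10
  24 1)) (.n 13 (.b 13 0 1 6) (.n 19 (.b 19 0 1 6) (.n 24 (.b 10 24 1 6) (.n 9 (.b 9 0 1 24) (.n 14
  (.b 14 15 1 6) (.n 21 (.b 4 21 6 1) (.n 22 (.b 4 22 24 1) (.n 2 (.n 8 (.b 2 8 9 24) (.n 23 (.b 23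
  0 9 8) (.n 11 (.b 0 11 22 23) (.n 12 (.b 12 2 8 9) (.n 17 (.b 17 2 6 13) .g))))) (.b 3 10 6
  2)))))))))) (.n 11 (.n 5 (.n 8 (.n 16 (.n 12 (.n 17 (.n 18 (.n 6 (.n 2 .g (.n 7 .g (.n 9 .g (.b 4
  5 7 9)))) (.n 13 (.b 13 0 1 6) (.n 19 (.b 19 0 1 6) (.n 14 (.b 14 15 1 6) (.n 21 (.b 4 21 6 1) (.n
  2 (.b 2 3 10 6) (.n 7 (.b 7 17 2 6) (.n 25 (.b 25 12 2 6) (.n 9 (.n 23 .g (.b 0 9 7 23)) (.b 4 5 7
  9)))))))))) (.b 3 4 18 10)) (.b 3 4 17 10)) (.b 15 3 10 12)) (.b 15 8 16 1)) (.b 15 3 10 8)) (.b 3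
  4 5 10)) (.b 0 3 10 11))) (.b 3 0 1 20)) (.b 3 0 1 15)) (.b 3 0 1 4)) (.n 11 (.n 10 (.n 15 (.n 20
  (.n 6 (.n 24 (.n 2 (.n 4 (.n 17 (.n 16 (.n 5 (.n 7 (.n 8 .g (.n 9 .g (.b 24 2 8 9))) (.n 9 (.n 23
  .g (.b 0 9 7 23)) (.b 4 5 7 9))) (.n 7 (.n 13 (.n 25 .g (.b 17 4 5 25)) (.b 17 4 5 13)) (.b 17 4 5
  7))) (.b 4 17 16 1)) (.n 7 (.n 13 (.n 19 (.n 25 (.n 5 .g (.n 8 .g (.n 9 .g (.b 19 0 9 8)))) (.b 2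
  6 25 17)) (.b 0 13 17 19)) (.b 2 6 13 17)) (.b 2 6 7 17))) (.n 9 (.b 9 0 1 4) (.n 5 (.b 5 15 1 4)
  (.n 17 (.b 17 15 1 4) (.n 18 (.b 18 15 1 4) (.n 21 (.b 21 6 1 4) (.n 22 (.b 22 24 1 4) (.n 23 (.n
  7 (.n 8 (.n 12 (.n 19 (.n 13 .g (.b 19 0 13 17)) (.b 23 0 19 18)) (.b 23 0 9 12)) (.b 23 0 9 8))
  (.b 23 0 9 7)) (.b 0 11 22 23))))))))) (.b 10 6 2 3)) (.b 6 10 24 1)) (.n 13 (.b 13 0 1 6) (.n 19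
  (.b 19 0 1 6) (.n 24 (.b 10 24 1 6) (.n 9 (.b 9 0 1 24) (.n 14 (.b 14 15 1 6) (.n 21 (.b 21 20 1
  6) (.n 5 (.b 5 10 6 13) (.n 12 (.b 10 12 13 5) (.n 23 (.b 23 0 9 12) (.n 22 (.n 4 (.b 4 22 24 1)
  (.n 17 (.b 17 15 1 4) .g)) (.b 0 11 22 23)))))))))))) (.b 11 0 1 20)) (.b 11 0 1 15)) (.b 11 0 3
  10)) (.n 6 (.n 2 (.n 24 (.n 10 (.n 22 (.n 4 (.n 16 (.n 12 (.n 15 (.n 20 (.n 5 (.n 7 (.n 8 .g (.n 9
  .g (.b 12 2 8 9))) (.n 17 (.n 9 .g (.b 4 5 7 9)) (.b 2 6 7 17))) (.n 7 (.n 13 (.n 25 .g (.b 7 6 25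
  5)) (.b 7 6 13 5)) (.b 6 10 5 7))) (.b 15 12 20 1)) (.b 12 2 3 15)) (.n 9 (.n 13 (.n 19 (.n 23 (.n
  25 (.n 5 .g (.n 7 .g (.b 9 4 5 7))) (.b 2 6 25 12)) (.b 0 9 12 23)) (.b 0 9 12 19)) (.b 0 9 12
  13)) (.b 24 2 12 9))) (.b 4 22 16 1)) (.b 22 24 1 4)) (.b 24 10 11 22)) (.b 6 2 3 10)) (.b 6 2 24
  1)) (.n 10 (.b 10 6 2 3) (.n 17 (.n 4 (.b 4 17 2 3) (.n 9 (.b 9 0 1 4) (.n 15 (.b 17 15 1 4) (.n
  14 (.b 6 14 15 1) (.n 16 (.b 17 16 1 4) (.n 20 (.b 17 20 1 4) (.n 21 (.b 21 6 1 4) (.n 7 (.b 7 17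
  4 9) (.n 23 (.b 23 0 9 7) .g))))))))) (.n 7 (.b 6 7 17 2) (.n 13 (.b 6 13 17 2) (.n 19 (.b 19 0 13
  17) (.n 25 (.b 6 25 17 2) (.n 4 (.n 18 (.b 4 18 2 3) (.n 23 (.b 23 0 19 18) (.n 9 (.b 0 9 7 23)
  (.n 5 (.b 4 5 10 3) .g)))) (.n 9 (.b 9 0 1 4) (.n 23 (.b 23 0 9 7) (.n 21 (.b 21 6 1 4)
  .g))))))))))) (.n 13 (.b 13 0 1 6) (.n 19 (.b 19 0 1 6) (.n 18 (.n 2 (.b 18 2 6 19) (.n 4 (.b 4 18
  2 3) (.n 9 (.b 9 0 1 4) (.n 15 (.b 18 15 1 4) (.n 20 (.b 18 20 1 4) (.n 10 (.b 10 18 2 3) (.n 25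
  (.b 25 18 2 6) (.n 5 (.n 7 (.b 5 7 9 4) .g) .g)))))))) (.n 23 (.b 23 0 19 18) (.n 8 (.n 2 (.b 8 2
  6 19) (.n 10 (.b 10 8 2 3) (.n 15 (.b 15 8 2 3) (.n 16 (.b 8 16 1 15) (.n 20 (.b 8 20 1 15) (.n 4
  (.n 5 (.b 4 5 15 1) .g) .g)))))) (.n 9 (.b 0 9 8 19) (.n 2 (.n 24 (.b 2 24 1 6) (.n 12 (.b 12 2 8
  9) (.n 17 (.b 17 2 6 13) (.n 4 (.n 21 (.b 4 21 6 1) .g) .g)))) (.n 4 (.n 21 (.b 4 21 6 1) (.n 17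
  (.b 4 17 2 3) (.n 5 (.b 4 5 13 17) .g))) (.n 5 (.n 15 (.b 5 15 1 4) (.n 10 (.b 5 10 3 4) .g)) (.n
  7 (.n 17 (.b 7 17 2 6) .g) .g)))))))))))))) (.n 1 (.n 3 (.n 11 (.n 6 (.n 13 (.n 19 (.n 18 (.n 23
  (.n 8 (.n 9 (.n 2 (.n 4 (.n 5 (.n 7 .g (.n 17 .g (.b 2 6 7 17))) (.n 15 (.n 10 .g (.b 3 4 5 10))
  (.b 1 4 5 15))) (.n 21 (.n 17 (.n 5 .g (.b 13 17 4 5)) (.b 2 3 4 17)) (.b 6 1 4 21))) (.n 24 (.n
  12 (.n 17 (.n 4 .g (.n 21 .g (.b 6 1 4 21))) (.b 6 13 17 2)) (.b 8 9 12 2)) (.b 1 6 2 24))) (.b 8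
  19 0 9)) (.n 2 (.n 10 (.n 15 (.n 16 (.n 20 (.n 4 .g (.n 5 .g (.b 15 1 4 5))) (.b 1 15 8 20)) (.b 1
  15 8 16)) (.b 2 3 15 8)) (.b 2 3 10 8)) (.b 6 19 8 2))) (.b 19 18 23 0)) (.n 2 (.n 4 (.n 9 (.n 15
  (.n 20 (.n 10 (.n 25 (.n 5 .g (.n 7 .g (.b 9 4 5 7))) (.b 2 6 25 18)) (.b 2 3 10 18)) (.b 1 4 18
  20)) (.b 1 4 18 15)) (.b 1 4 9 0)) (.b 2 3 4 18)) (.b 6 19 18 2))) (.b 1 6 19 0)) (.b 1 6 13 0))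
  (.n 2 (.n 10 (.n 17 (.n 7 (.n 13 (.n 19 (.n 25 (.n 4 (.n 9 (.n 23 (.n 21 .g (.b 1 4 21 6)) (.b 9 7
  23 0)) (.b 1 4 9 0)) (.n 18 (.n 23 (.n 9 (.n 5 .g (.b 10 3 4 5)) (.b 7 23 0 9)) (.b 19 18 23 0))
  (.b 2 3 4 18))) (.b 17 2 6 25)) (.b 13 17 19 0)) (.b 17 2 6 13)) (.b 17 2 6 7)) (.n 4 (.n 9 (.n 15
  (.n 14 (.n 16 (.n 20 (.n 21 (.n 7 (.n 23 .g (.b 9 7 23 0)) (.b 4 9 7 17)) (.b 1 4 21 6)) (.b 1 4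
  17 20)) (.b 1 4 17 16)) (.b 15 1 6 14)) (.b 1 4 17 15)) (.b 1 4 9 0)) (.b 2 3 4 17))) (.b 2 3 10
  6)) (.n 24 (.b 24 1 6 2) (.n 10 (.b 3 10 6 2) (.n 22 (.b 11 22 24 10) (.n 4 (.b 1 4 22 24) (.n 16
  (.b 16 1 4 22) (.n 12 (.n 9 (.b 12 9 24 2) (.n 13 (.b 12 13 0 9) (.n 19 (.b 12 19 0 9) (.n 23 (.b
  12 23 0 9) (.n 25 (.b 25 12 2 6) (.n 5 (.n 7 (.b 5 7 9 4) .g) .g)))))) (.n 15 (.b 3 15 12 2) (.n
  20 (.b 20 1 15 12) (.n 5 (.n 7 (.b 5 7 6 10) (.n 13 (.b 13 5 7 6) (.n 25 (.b 25 5 7 6) .g))) (.n 7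
  (.n 17 (.b 7 17 2 6) (.n 9 (.b 7 9 4 5) .g)) (.n 8 (.n 9 (.b 8 9 12 2) .g) .g))))))))))))) (.n 10
  (.b 3 10 11 0) (.n 15 (.b 1 15 11 0) (.n 20 (.b 1 20 11 0) (.n 6 (.n 13 (.n 19 (.n 24 (.n 9 (.n 14
  (.n 21 (.n 5 (.n 12 (.n 23 (.n 22 (.b 22 23 0 11) (.n 4 (.n 17 .g (.b 1 4 17 15)) (.b 24 1 4 22)))
  (.b 9 12 23 0)) (.b 13 5 10 12)) (.b 6 13 5 10)) (.b 1 6 21 20)) (.b 1 6 14 15)) (.b 1 24 9 0))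
  (.b 1 6 10 24)) (.b 1 6 19 0)) (.b 1 6 13 0)) (.n 24 (.b 24 1 6 10) (.n 2 (.b 2 3 10 6) (.n 4 (.n
  9 (.n 5 (.n 17 (.n 18 (.n 21 (.n 22 (.n 23 (.b 22 23 0 11) (.n 7 (.b 9 7 23 0) (.n 8 (.b 9 8 23 0)
  (.n 12 (.b 9 12 23 0) (.n 19 (.b 19 18 23 0) (.n 13 (.b 13 17 19 0) .g)))))) (.b 1 4 22 24)) (.b 1
  4 21 6)) (.b 1 4 18 15)) (.b 1 4 17 15)) (.b 1 4 5 15)) (.b 1 4 9 0)) (.n 17 (.n 7 (.b 7 17 2 6)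
  (.n 13 (.b 13 17 2 6) (.n 19 (.b 17 19 0 13) (.n 25 (.b 25 17 2 6) (.n 5 (.n 8 (.n 9 (.b 9 8 19 0)
  .g) .g) .g))))) (.n 16 (.b 16 1 4 17) (.n 5 (.n 7 (.b 5 7 17 4) (.n 13 (.b 5 13 17 4) (.n 25 (.b 5
  25 17 4) .g))) (.n 7 (.n 9 (.b 7 9 4 5) (.n 23 (.b 7 23 0 9) .g)) (.n 8 (.n 9 (.b 8 9 24 2) .g)
  .g))))))))))))) (.n 4 (.b 1 4 3 0) (.n 15 (.b 1 15 3 0) (.n 20 (.b 1 20 3 0) (.n 10 (.n 11 (.b 10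
  11 0 3) (.n 5 (.b 5 10 3 4) (.n 8 (.b 10 8 15 3) (.n 16 (.b 16 1 15 8) (.n 12 (.b 10 12 15 3) (.n
  17 (.b 17 10 3 4) (.n 18 (.b 18 10 3 4) (.n 6 (.n 13 (.n 19 (.n 14 (.n 21 (.n 2 (.n 7 (.n 25 (.n 9
  (.b 7 9 4 5) (.n 23 (.b 7 23 0 9) .g)) (.b 2 6 25 12)) (.b 2 6 7 17)) (.b 10 6 2 3)) (.b 6 1 4
  21)) (.b 1 6 14 15)) (.b 1 6 19 0)) (.b 1 6 13 0)) (.n 2 (.n 7 (.n 9 (.b 7 9 4 5) .g) .g)
  .g))))))))) (.n 6 (.n 13 (.n 19 (.n 24 (.n 9 (.n 14 (.n 21 (.n 22 (.n 2 (.b 6 2 3 10) (.n 8 (.n 23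
  (.n 11 (.n 12 (.n 17 .g (.b 6 13 17 2)) (.b 8 9 12 2)) (.b 22 23 0 11)) (.b 9 8 23 0)) (.b 9 24 2
  8))) (.b 24 1 4 22)) (.b 6 1 4 21)) (.b 1 6 14 15)) (.b 1 24 9 0)) (.b 1 6 10 24)) (.b 1 6 19 0))
  (.b 1 6 13 0)) (.n 24 (.b 24 1 6 10) (.n 17 (.n 2 (.b 17 2 3 4) (.n 7 (.b 7 17 2 6) (.n 13 (.b 13
  17 2 6) (.n 19 (.b 17 19 0 13) (.n 25 (.b 25 17 2 6) (.n 5 (.n 8 (.n 9 (.b 9 8 19 0) .g) .g)
  .g)))))) (.n 16 (.b 16 1 4 17) (.n 2 (.n 18 (.b 18 2 3 4) (.n 8 (.b 8 2 3 10) (.n 12 (.b 12 2 3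
  10) (.n 5 (.n 7 (.b 5 7 17 4) .g) .g)))) (.n 5 (.n 7 (.b 5 7 17 4) (.n 13 (.b 5 13 17 4) (.n 25
  (.b 5 25 17 4) .g))) (.n 7 (.n 9 (.b 7 9 4 5) (.n 23 (.b 7 23 0 9) .g)) (.n 8 (.n 9 (.b 8 9 24 2)
  .g) .g))))))))))))) (.n 3 (.n 4 (.b 4 3 0 1) (.n 15 (.b 15 3 0 1) (.n 20 (.b 20 3 0 1) (.n 10 (.n
  11 (.n 5 (.n 8 (.n 16 (.b 8 16 1 15) (.n 12 (.n 17 (.n 18 (.n 6 (.n 13 (.b 6 13 0 1) (.n 19 (.b 6
  19 0 1) (.n 9 (.b 9 8 19 0) (.n 23 (.b 8 23 0 9) (.n 22 (.b 11 22 23 0) (.n 24 (.n 14 (.b 6 14 15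
  1) (.n 21 (.b 21 6 1 4) (.n 7 (.b 5 7 9 4) .g))) (.b 6 10 24 1))))))) (.n 24 (.b 10 24 1 6) (.n 2
  (.n 7 (.n 9 (.n 23 (.n 19 (.n 13 .g (.b 9 12 13 0)) (.b 9 8 19 0)) (.b 9 7 23 0)) (.b 2 8 9 24))
  (.b 17 2 6 7)) (.b 3 10 6 2)))) (.b 10 3 4 18)) (.b 10 3 4 17)) (.b 3 10 12 15))) (.b 3 10 8 15))
  (.b 10 3 4 5)) (.b 3 10 11 0)) (.n 2 (.n 17 (.n 16 (.b 17 16 1 4) (.n 18 (.n 6 (.n 13 (.b 6 13 0
  1) (.n 19 (.b 6 19 0 1) (.n 23 (.b 18 23 0 19) (.n 24 (.n 9 (.b 24 9 0 1) (.n 14 (.b 6 14 15 1)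
  (.n 21 (.b 21 6 1 4) (.n 22 (.b 22 24 1 4) .g)))) (.b 6 2 24 1))))) (.b 2 3 10 6)) (.b 2 3 4 18)))
  (.b 2 3 4 17)) (.n 19 (.n 6 (.b 6 19 0 1) (.n 8 (.b 19 8 2 6) (.n 12 (.b 19 12 2 6) (.n 17 (.b 19
  17 2 6) (.n 18 (.b 19 18 2 6) (.n 5 (.n 7 (.b 5 7 17 4) (.n 13 (.b 5 13 17 4) .g)) (.n 7 (.n 9 (.b
  7 9 4 5) .g) .g))))))) (.n 23 (.n 8 (.b 8 23 0 19) (.n 12 (.b 12 23 0 19) (.n 18 (.b 18 23 0 19)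
  (.n 21 (.b 23 21 4 18) (.n 22 (.b 23 22 4 18) (.n 14 (.b 14 23 8 15) .g)))))) (.n 6 (.n 13 (.b 6
  13 0 1) (.n 14 (.b 6 14 15 1) (.n 21 (.b 21 6 1 4) (.n 7 (.b 6 7 23 14) (.n 5 (.n 8 (.n 9 (.b 9 8
  19 0) .g) .g) .g))))) (.n 5 (.n 7 (.b 5 7 6 10) (.n 13 (.b 13 5 7 6) (.n 25 (.b 25 5 7 6) (.n 8
  (.n 9 (.b 9 8 19 0) .g) .g)))) (.n 7 (.n 9 (.b 9 7 23 0) (.n 17 (.b 7 17 2 6) (.n 8 (.n 16 (.b 8
  16 1 15) .g) .g))) (.n 8 (.n 9 (.b 9 8 19 0) (.n 16 (.b 8 16 1 15) .g)) (.n 9 (.n 12 (.b 9 12 19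
  0) .g) .g)))))))))))) (.n 11 (.n 10 (.b 10 11 0 3) (.n 15 (.b 15 11 0 1) (.n 20 (.b 20 11 0 1) (.n
  2 (.n 6 (.b 6 2 3 10) (.n 24 (.b 2 24 1 6) (.n 8 (.b 8 2 3 10) (.n 12 (.b 12 2 3 10) (.n 17 (.b 17
  2 3 10) (.n 18 (.b 18 2 3 10) (.n 22 (.b 11 22 24 10) (.n 4 (.n 9 (.b 4 9 0 1) .g) .g)))))))) (.n
  22 (.n 23 (.n 24 (.n 9 (.b 24 9 0 1) (.n 7 (.b 7 23 0 9) (.n 8 (.b 8 23 0 9) (.n 12 (.b 12 23 0 9)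
  (.n 14 (.b 14 24 1 15) (.n 21 (.b 21 24 1 20) (.n 4 (.n 5 (.b 4 5 15 1) .g) .g))))))) (.b 11 22 24
  10)) (.b 11 22 23 0)) (.n 4 (.n 9 (.b 4 9 0 1) (.n 5 (.b 4 5 15 1) (.n 17 (.b 4 17 15 1) (.n 18
  (.b 4 18 15 1) (.n 21 (.b 4 21 20 1) (.n 6 (.n 13 (.b 6 13 0 1) .g) .g)))))) (.n 6 (.n 13 (.b 6 13
  0 1) (.n 19 (.b 6 19 0 1) (.n 14 (.b 6 14 15 1) (.n 21 (.b 21 6 1 4) (.n 5 (.n 7 (.n 17 (.n 16 (.b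
  17 16 1 4) .g) .g) .g) .g))))) (.n 5 (.n 7 (.b 5 7 6 10) (.n 13 (.b 13 5 7 6) (.n 25 (.b 25 5 7 6)
  (.n 8 (.n 16 (.b 8 16 1 15) .g) .g)))) (.n 7 (.n 17 (.b 7 17 2 6) (.n 9 (.b 7 9 4 5) (.n 23 (.b 7
  23 0 9) .g))) (.n 8 (.n 16 (.b 8 16 1 15) (.n 19 (.b 19 8 2 6) .g)) (.n 9 (.n 24 (.b 24 9 0 1) .g)
  .g))))))))))) (.n 6 (.n 13 (.b 6 13 0 1) (.n 19 (.b 6 19 0 1) (.n 2 (.n 24 (.n 9 (.b 24 9 0 1) (.n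
  8 (.n 23 (.b 8 23 0 9) (.n 12 (.n 10 (.n 17 (.n 4 (.n 15 (.n 16 (.n 20 (.n 18 (.n 7 (.n 5 .g (.b
  17 4 5 13)) (.b 17 4 9 7)) (.b 2 6 19 18)) (.b 15 8 20 1)) (.b 15 8 16 1)) (.b 4 17 15 1)) (.b 17
  2 3 4)) (.b 2 6 13 17)) (.b 6 2 3 10)) (.b 2 8 9 12))) (.b 24 2 8 9))) (.b 6 2 24 1)) (.n 10 (.b
  10 6 2 3) (.n 17 (.n 4 (.b 4 17 2 3) (.n 15 (.b 17 15 1 4) (.n 14 (.b 6 14 15 1) (.n 16 (.b 17 16
  1 4) (.n 20 (.b 17 20 1 4) (.n 21 (.b 21 6 1 4) .g)))))) (.n 7 (.b 6 7 17 2) (.n 25 (.b 6 25 17 2)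
  (.n 4 (.n 9 (.b 4 9 0 1) (.n 18 (.b 4 18 2 3) (.n 5 (.b 4 5 10 3) .g))) (.n 21 (.b 21 6 1 4) (.n 5
  (.n 15 (.b 5 15 1 4) .g) .g)))))))))) (.n 24 (.n 9 (.b 24 9 0 1) (.n 2 (.b 2 24 1 6) (.n 10 (.b 10
  24 1 6) (.n 14 (.b 14 24 1 6) (.n 21 (.b 21 24 1 6) (.n 25 (.b 25 24 1 6) (.n 22 (.b 22 24 10 11)
  (.n 4 (.n 17 (.b 4 17 2 3) (.n 18 (.b 4 18 2 3) .g)) (.n 5 (.n 15 (.b 5 15 1 4) .g) .g)))))))))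
  (.n 23 (.n 22 (.b 22 23 0 11) (.n 14 (.b 14 23 22 24) (.n 7 (.b 7 23 14 6) (.n 21 (.b 23 21 6 7)
  (.n 9 (.n 4 (.b 4 9 0 1) (.n 18 (.b 18 23 21 4) (.n 2 (.n 17 (.b 17 2 3 4) (.n 5 (.n 15 (.b 5 15 1
  4) .g) .g)) (.n 8 (.b 8 9 24 2) .g)))) (.n 8 (.b 8 23 0 9) (.n 12 (.b 12 23 0 9) (.n 2 (.n 17 (.b
  17 2 6 7) .g) .g)))))))) (.n 8 (.n 9 (.b 9 8 23 0) (.n 19 (.b 8 19 0 9) (.n 2 (.b 2 8 9 24) (.n 10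
  (.b 10 8 2 3) (.n 15 (.b 15 8 2 3) (.n 16 (.b 8 16 1 15) (.n 20 (.b 8 20 1 15) .g))))))) (.n 12
  (.n 9 (.b 9 12 23 0) (.n 13 (.b 12 13 0 9) (.n 19 (.b 12 19 0 9) (.n 2 (.b 12 2 8 9) (.n 10 (.b 10
  12 2 3) (.n 15 (.b 15 12 2 3) .g)))))) (.n 4 (.n 9 (.b 4 9 0 1) (.n 21 (.b 4 21 6 1) (.n 22 (.b 4
  22 24 1) (.n 18 (.b 4 18 23 21) (.n 2 (.n 5 (.n 15 (.n 14 (.b 14 15 1 6) .g) .g) .g) .g))))) (.n 5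
  (.n 15 (.b 5 15 1 4) (.n 10 (.b 5 10 3 4) (.n 7 (.b 5 7 6 10) (.n 13 (.b 13 5 7 6) .g)))) (.n 2
  (.n 17 (.b 17 2 3 4) (.n 18 (.b 18 2 3 4) (.n 7 (.n 9 (.b 9 7 23 0) .g) .g))) (.n 7 (.n 9 (.b 9 7
  23 0) (.n 17 (.b 7 17 2 6) .g)) (.n 9 (.n 10 (.n 17 (.b 10 17 2 3) .g) .g) .g))))))))))))))

lemma proof_ok : check proof 0 0 = true := by decide +kernel

lemma count_le (S : Finset (Fin 26)) (A : ℕ)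
    (hA : ∀ i, A.testBit i = true → ∃ h : i < 26, (⟨i, h⟩ : Fin 26) ∈ S) :
    count A 26 ≤ S.card := by
  have h1 : ∀ m, count A m = ((Finset.range m).filter fun i => A.testBit i = true).card := by
    intro m
    induction m with
    | zero => simp [count]
    | succ m ih =>
      rw [count, ih, Finset.range_add_one, Finset.filter_insert]
      split_ifs with h
      · rw [Finset.card_insert_of_notMem (by simp)]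
      · simp
  rw [h1, ← Finset.card_map Fin.valEmbedding (s := S)]
  apply Finset.card_le_card
  intro i hi
  rw [Finset.mem_filter] at hi
  obtain ⟨h, hS⟩ := hA i hi.2
  rw [Finset.mem_map]
  exact ⟨⟨i, h⟩, hS, rfl⟩

/-- A split for which every 4-cycle is caught contradicts the decision tree. -/
lemma sound (S : Finset (Fin 26)) (hS : S.card = 13)
    (hgood : ∀ a b c d : Fin 26, adj a b = true → adj b c = true → adj c d = true → adj d a = true →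
      ¬ (a ∈ S ∧ b ∈ S ∧ c ∉ S ∧ d ∉ S) ∧ ¬ (a ∉ S ∧ b ∉ S ∧ c ∈ S ∧ d ∈ S))
    (t : T) : ∀ A B : ℕ, (∀ i, A.testBit i = true → ∃ h : i < 26, (⟨i, h⟩ : Fin 26) ∈ S) →
      (∀ i, B.testBit i = true → ∃ h : i < 26, (⟨i, h⟩ : Fin 26) ∈ Sᶜ) → check t A B = false := by
  induction t with
  | b a b c d =>
    intro A B hA hB
    by_contra h
    simp only [check, Bool.not_eq_false, Bool.and_eq_true, Bool.or_eq_true] at h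
    obtain ⟨⟨⟨⟨h1, h2⟩, h3⟩, h4⟩, h5⟩ := h
    rcases h5 with ⟨⟨⟨ha, hb⟩, hc⟩, hd⟩ | ⟨⟨⟨ha, hb⟩, hc⟩, hd⟩
    · obtain ⟨ha', ha⟩ := hA a ha
      obtain ⟨hb', hb⟩ := hA b hb
      obtain ⟨hc', hc⟩ := hB c hc
      obtain ⟨hd', hd⟩ := hB d hd
      exact (hgood ⟨a, ha'⟩ ⟨b, hb'⟩ ⟨c, hc'⟩ ⟨d, hd'⟩ h1 h2 h3 h4).1
        ⟨ha, hb, Finset.mem_compl.1 hc, Finset.mem_compl.1 hd⟩
    · obtain ⟨ha', ha⟩ := hB a ha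
      obtain ⟨hb', hb⟩ := hB b hb
      obtain ⟨hc', hc⟩ := hA c hc
      obtain ⟨hd', hd⟩ := hA d hd
      exact (hgood ⟨a, ha'⟩ ⟨b, hb'⟩ ⟨c, hc'⟩ ⟨d, hd'⟩ h1 h2 h3 h4).2
        ⟨Finset.mem_compl.1 ha, Finset.mem_compl.1 hb, hc, hd⟩
  | g =>
    intro A B hA hB
    have h1 := count_le S A hA
    have h2 := count_le Sᶜ B hB
    rw [Finset.card_compl, Fintype.card_fin, hS] at h2
    simp only [check, Bool.or_eq_false_iff, decide_eq_false_iff_not]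
    omega
  | n v l r ihl ihr =>
    intro A B hA hB
    simp only [check, Bool.and_eq_false_iff, decide_eq_false_iff_not]
    by_cases hv : v < 26
    · by_cases hvS : (⟨v, hv⟩ : Fin 26) ∈ S
      · left; right
        apply ihl _ _ _ hB
        intro i hi
        rw [Nat.testBit_lor, Bool.or_eq_true] at hi
        rcases hi with hi | hi
        · exact hA i hi
        · rw [Nat.one_shiftLeft, Nat.testBit_two_pow] at hi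
          have hi : v = i := by simpa using hi
          subst hi
          exact ⟨hv, hvS⟩
      · right
        apply ihr _ _ hA
        intro i hi
        rw [Nat.testBit_lor, Bool.or_eq_true] at hi
        rcases hi with hi | hi
        · exact hB i hi
        · rw [Nat.one_shiftLeft, Nat.testBit_two_pow] at hi
          have hi : v = i := by simpa using hi
          subst hi
          exact ⟨hv, Finset.mem_compl.2 hvS⟩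
    · left; left; exact hv

/-- The partner of a vertex in the matching. -/
def partner (i : Fin 26) : Fin 26 := ⟨i.1 ^^^ 1, by revert i; decide +kernel⟩

/-- The perfect matching. -/
def M : G.Subgraph where
  verts := Set.univ
  Adj i j := j = partner i
  adj_sub := by
    intro i j h
    subst h
    have h : ∀ i : Fin 26, adj i (partner i) = true := by decide +kernel
    exact h i
  edge_vert := fun _ => trivial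
  symm := ⟨by decide +kernel⟩

/-- One of the ends of the edge at `u` of the matching. -/
def pick (u : Fin 26) (e : Bool) : Fin 26 := if e then u else partner u

lemma sparse0 : ∀ u x : Fin 26, u ≠ x → u ≠ partner x → ∀ e f e' f' : Bool,
    adj (pick u e) (pick x f) = true → adj (pick u e') (pick x f') = true → e = e' ∧ f = f' := by
  decide +kernel

lemma sparse (u x : Fin 26) (hux : s(u, partner u) ≠ s(x, partner x)) (p q : Fin 26 × Fin 26)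
    (hp : (p.1 = u ∨ p.1 = partner u) ∧ (p.2 = x ∨ p.2 = partner x) ∧ adj p.1 p.2 = true)
    (hq : (q.1 = u ∨ q.1 = partner u) ∧ (q.2 = x ∨ q.2 = partner x) ∧ adj q.1 q.2 = true) :
    p = q := by
  have hpp : ∀ i : Fin 26, partner (partner i) = i := by decide +kernel
  have h1 : u ≠ x := by rintro rfl; exact hux rfl
  have h2 : u ≠ partner x := by
    rintro rfl
    rw [hpp] at hux
    exact hux Sym2.eq_swap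
  have hpick : ∀ u y : Fin 26, y = u ∨ y = partner u → ∃ e, y = pick u e := by
    rintro u y (h | h)
    · exact ⟨true, h⟩
    · exact ⟨false, h⟩
  obtain ⟨p1, p2⟩ := p
  obtain ⟨q1, q2⟩ := q
  obtain ⟨hp1, hp2, hp3⟩ := hp
  obtain ⟨hq1, hq2, hq3⟩ := hq
  obtain ⟨e, he⟩ := hpick u _ hp1
  obtain ⟨f, hf⟩ := hpick x _ hp2
  obtain ⟨e', he'⟩ := hpick u _ hq1
  obtain ⟨f', hf'⟩ := hpick x _ hq2
  simp only at he hf he' hf' hp3 hq3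
  subst he hf he' hf'
  obtain ⟨h3, h4⟩ := sparse0 u x h1 h2 e f e' f' hp3 hq3
  rw [h3, h4]

/-- There is a triangle-free graph with 26 vertices which has a sparsely joined perfect matching, such
that for every set `A` of 13 vertices some 4-cycle `v1 v2 v3 v4` is not caught by `A`: both opposite
pairs `{v1, v3}` and `{v2, v4}` are split by `A`. -/
theorem result : ∃ G : SimpleGraph (Fin 26), G.CliqueFree 3 ∧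
    (∃ M : G.Subgraph, SparselyJoined G M) ∧
    ∀ A : Finset (Fin 26), A.card = 13 → ∃ v1 v2 v3 v4 : Fin 26,
      v1 ≠ v3 ∧ v2 ≠ v4 ∧ G.Adj v1 v2 ∧ G.Adj v2 v3 ∧ G.Adj v3 v4 ∧ G.Adj v4 v1 ∧
      ¬ (v1 ∈ A ∧ v3 ∈ A) ∧ ¬ (v1 ∉ A ∧ v3 ∉ A) ∧ ¬ (v2 ∈ A ∧ v4 ∈ A) ∧ ¬ (v2 ∉ A ∧ v4 ∉ A) := by
  refine ⟨G, ?_, ⟨M, ?_, ?_⟩, ?_⟩
  · have h : ∀ a b c : Fin 26, adj a b = true → adj a c = true → adj b c = true → False := by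
      decide +kernel
    intro s hs
    rw [SimpleGraph.is3Clique_iff] at hs
    obtain ⟨a, b, c, hab, hac, hbc, -⟩ := hs
    exact h a b c hab hac hbc
  · constructor
    · intro v _
      exact ⟨partner v, rfl, fun w hw => hw⟩
    · intro v
      trivial
  · intro u v x y huv hxy hne
    have huv : v = partner u := huv
    have hxy : y = partner x := hxy
    subst huv hxy
    intro p hp q hq
    exact sparse u x hne p q hp hq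
  · intro A hA
    by_contra hcon
    push Not at hcon
    have hgood : ∀ a b c d : Fin 26, adj a b = true → adj b c = true → adj c d = true →
        adj d a = true →
        ¬ (a ∈ A ∧ b ∈ A ∧ c ∉ A ∧ d ∉ A) ∧ ¬ (a ∉ A ∧ b ∉ A ∧ c ∈ A ∧ d ∈ A) := by
      intro a b c d h1 h2 h3 h4
      constructor
      · rintro ⟨ha, hb, hc, hd⟩
        have hac : a ≠ c := fun h => hc (h ▸ ha)
        have hbd : b ≠ d := fun h => hd (h ▸ hb)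
        have := hcon a b c d hac hbd h1 h2 h3 h4
        tauto
      · rintro ⟨ha, hb, hc, hd⟩
        have hac : a ≠ c := fun h => ha (h ▸ hc)
        have hbd : b ≠ d := fun h => hb (h ▸ hd)
        have := hcon a b c d hac hbd h1 h2 h3 h4
        tauto
    have h1 := sound A hA hgood proof 0 0 (by simp) (by simp)
    rw [proof_ok] at h1
    exact absurd h1 (by decide)

end Pool.Agent.Results.MP_42b70f_co.NoSplit
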